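import Pool.Agent.V1140.ZT.Mackey

/-!
# There is no metrizable precompact Mackey topology on `ℤ`

Let `H` be the (countable, infinite) group of characters of a metrizable precompact group topology on
`ℤ`. We choose a sequence `h n` of nonzero elements of `H` which converges to zero very fast: the
norm of `h n` is small in comparison with the recurrence times of the characters `h 0, …, h (n-1)`
and of the first `n + 1` elements of `H`. The join of the given topology (or of the topology of pointwise
convergence on `H`) and the topology of uniform convergence on the sequence is a locally quasi-convex
group topology. It is not coarser than the given one. It has the same characters: let `x` be a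
character of the join, and let `r m` be the maximum of `‖u x‖` for the integers `u` of level `m` (at
most `δ / ‖h m‖`, and with small `‖u h j‖`, `‖u γ j‖` for `j < m`). Sums of elements of different levels
are in a given neighbourhood of zero, so that the sum of the `r m` is finite. Every integer which is
small for the first characters is a sum of at most `C` elements of each level, so that `x` is
continuous for the precompact topology of finitely many elements of `H`, and is in `H` by Kronecker's
theorem.
-/

set_option autoImplicit false

namespace Pool.Agent.Results.MP_19adc1_gt.NoMackey

open Pool.Agent.V1140.ZT

/-- There is no metrizable precompact group topology on `ℤ` which is Mackey. -/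
theorem result : ¬ ∃ τ : TopologicalSpace ℤ, @IsTopologicalAddGroup ℤ τ _ ∧
    @TopologicalSpace.MetrizableSpace ℤ τ ∧ IsPrecompact τ ∧ IsMackey τ := by
  rintro ⟨τ, hg, hm, hpc, hM⟩
  exact not_mackey hg hm hpc hM

end Pool.Agent.Results.MP_19adc1_gt.NoMackey
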